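import Pool.Agent.H20.MIC.Frm
import Pool.Agent.H5.M3F.Gr

/-!
# Polynomials which are almost constant along the leaves of a triangular system

`fl S j` is the field of the direction `j` in the chart `x l = S l x + z l / 2 ^ g l` of the
triangular system `S`. A polynomial whose derivatives along the fields of the directions `Sl` are
small on the natural box is, up to a small error, a polynomial in the other natural coordinates
(`tl_leaf`), and its coefficients with a factor in `Sl` are small (`tl_coef`).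
-/

set_option autoImplicit false

namespace Pool.TL25

open Finset Real MvPolynomial
open Pool.STAT Pool.MIC.Frm

/-- The field of the direction `j` of the chart of the triangular system `S`. -/
noncomputable def fl (S : ℕ → PN) (j : ℕ) : ℕ → PN :=
  fixm fun ξ l => if l = j then 1 else lieN ξ (S l)

/-- The derivative in the direction `j` of the chart of the triangular system `S`. -/
noncomputable def Dj (S : ℕ → PN) (j : ℕ) (R : PN) : PN := lieN (fl S j) R

variable {S : ℕ → PN} {g : ℕ → ℕ}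

theorem fl_eq (hS : TriN S) (j l : ℕ) :
    fl S j l = if l = j then 1 else Dj S j (S l) := by
  unfold Dj fl
  exact AdxRow.fixm_eq (S := fun ξ l => if l = j then 1 else lieN ξ (S l)) (fun i f f' h => by
    show (if i = j then (1 : PN) else lieN f (S i)) = if i = j then 1 else lieN f' (S i)
    rw [AdxRow.lieN_congr fun k hk => h k (mem_range.1 (hS i hk))]) l

theorem Dj_X (j l : ℕ) : Dj S j (X l) = fl S j l := mkDerivation_X _ _ _

/-- The derivative as a sum of partial derivatives. -/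
theorem Dj_sum {m : ℕ} {R : PN} (hR : R.vars ⊆ range m) (j : ℕ) :
    Dj S j R = ∑ l ∈ range m, fl S j l * pderiv l R := by
  unfold Dj
  rw [FLB.lieN_eq _ hR]
  exact Finset.sum_congr rfl fun l _ => mul_comm _ _

/-- **Chain rule in the chart.** -/
theorem chain_all {ν ξ : ℕ → PN} {j : ℕ} {c : ℝ} (h : ∀ l, pderiv j (ν l) = C c * bind₁ ν (ξ l))
    (P : PN) : pderiv j (bind₁ ν P) = C c * bind₁ ν (lieN ξ P) := by
  induction P using MvPolynomial.induction_on with
  | C a =>
    have h1 : lieN ξ (C a) = 0 := by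
      have := (lieN ξ).map_algebraMap a
      exact this
    rw [h1, map_zero, mul_zero, bind₁_C_right, pderiv_C]
  | add p q hp hq => simp only [map_add, hp, hq, mul_add]
  | mul_X p i hp =>
    have h1 : lieN ξ (p * X i) = p * ξ i + X i * lieN ξ p := by
      rw [Derivation.leibniz, smul_eq_mul, smul_eq_mul]
      unfold lieN
      rw [mkDerivation_X]
    rw [map_mul, bind₁_X_right, Derivation.leibniz, smul_eq_mul, smul_eq_mul, hp, h, h1]
    simp only [map_add, map_mul, bind₁_X_right]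
    ring

theorem chain_lt {ν ξ : ℕ → PN} {j m : ℕ} {c : ℝ}
    (h : ∀ l < m, pderiv j (ν l) = C c * bind₁ ν (ξ l)) (hξ : ∀ l < m, (ξ l).vars ⊆ range m)
    {P : PN} (hP : P.vars ⊆ range m) : pderiv j (bind₁ ν P) = C c * bind₁ ν (lieN ξ P) := by
  obtain ⟨ν', hν'⟩ : ∃ ν' : ℕ → PN, ν' = fun l => if l < m then ν l else 0 := ⟨_, rfl⟩
  obtain ⟨ξ', hξ'⟩ : ∃ ξ' : ℕ → PN, ξ' = fun l => if l < m then ξ l else 0 := ⟨_, rfl⟩
  have e1 : ∀ Q : PN, Q.vars ⊆ range m → bind₁ ν Q = bind₁ ν' Q := fun Q hQ =>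
    AdxRow.bnd_congr fun k hk => by rw [hν']; exact (if_pos (mem_range.1 (hQ hk))).symm
  have e2 : lieN ξ P = lieN ξ' P :=
    AdxRow.lieN_congr fun k hk => by rw [hξ']; exact (if_pos (mem_range.1 (hP hk))).symm
  have e3 : (lieN ξ P).vars ⊆ range m := AdxRow.vars_lieN hP hξ
  rw [e1 P hP, e1 _ e3, e2]
  refine chain_all (fun l => ?_) P
  rw [hν', hξ']
  dsimp only
  by_cases hl : l < m
  · rw [if_pos hl, if_pos hl, h l hl]
    rw [e1 _ (hξ l hl), hν']
  · rw [if_neg hl, if_neg hl, map_zero, map_zero, mul_zero]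

theorem fl_vars (hS : TriN S) (j l : ℕ) : (fl S j l).vars ⊆ range (l + 1) := by
  induction l using Nat.strong_induction_on with
  | _ l ih =>
    rw [fl_eq hS]
    split_ifs
    · rw [vars_one]
      exact Finset.empty_subset _
    · refine (AdxRow.vars_lieN (m := l) (hS l) fun k hk => (ih k hk).trans
        (Finset.range_mono (by omega))).trans (Finset.range_mono (by omega))

theorem fl_lt (hS : TriN S) {j l : ℕ} (h : l < j) : fl S j l = 0 := by
  induction l using Nat.strong_induction_on with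
  | _ l ih =>
    rw [fl_eq hS, if_neg (by omega), Dj_sum (hS l)]
    refine Finset.sum_eq_zero fun i hi => ?_
    have := mem_range.1 hi
    rw [ih i this (by omega), zero_mul]

theorem pderiv_nuc (hS : TriN S) (j l : ℕ) :
    pderiv j (nuc g S l) = C (1 / (2 : ℝ) ^ g j) * bind₁ (nuc g S) (fl S j l) := by
  induction l using Nat.strong_induction_on with
  | _ l ih =>
    rw [AdxRow.nuc_eq hS, map_add, Derivation.leibniz, pderiv_C, smul_zero, add_zero, fl_eq hS]
    by_cases hl : l = j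
    · subst hl
      rw [if_pos rfl, pderiv_X_self, smul_eq_mul, mul_one, map_one, mul_one]
      rw [chain_lt (m := l) (ξ := fl S l) (fun i hi => ih i hi) (fun i hi => (fl_vars hS l i).trans
        (Finset.range_mono (by omega))) (hS l)]
      have h1 : lieN (fl S l) (S l) = 0 := by
        have := Dj_sum (S := S) (hS l) l
        unfold Dj at this
        rw [this]
        refine Finset.sum_eq_zero fun i hi => ?_
        rw [fl_lt hS (mem_range.1 hi), zero_mul]
      rw [h1, map_zero, mul_zero, zero_add]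
    · rw [if_neg hl, pderiv_X_of_ne hl, smul_zero, add_zero]
      exact chain_lt (m := l) (ξ := fl S j) (fun i hi => ih i hi) (fun i hi =>
        (fl_vars hS j i).trans (Finset.range_mono (by omega))) (hS l)

/-- **The fields of the chart.** -/
theorem pderiv_fr (hS : TriN S) (j : ℕ) (R : PN) :
    pderiv j (bind₁ (nuc g S) R) = C (1 / (2 : ℝ) ^ g j) * bind₁ (nuc g S) (Dj S j R) :=
  chain_all (ν := nuc g S) (ξ := fl S j) (fun l => pderiv_nuc hS j l) R

theorem Dj_vars (hS : TriN S) {m : ℕ} {R : PN} (hv : R.vars ⊆ range m) (j : ℕ) :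
    (Dj S j R).vars ⊆ range m :=
  AdxRow.vars_lieN hv fun k hk => (fl_vars hS j k).trans (Finset.range_mono (by omega))

/-! ### Almost constant along the leaves -/

/-- The part with the coordinates `Sl` equal to `c`. -/
noncomputable def cst (Sl : Finset ℕ) (c : ℕ → ℝ) (l : ℕ) : PN := if l ∈ Sl then C (c l) else X l

/-- The polynomial in the heights. -/
noncomputable def hgt (g : ℕ → ℕ) (S : ℕ → PN) (Sl : Finset ℕ) (c : ℕ → ℝ) (R : PN) : PN :=
  bind₁ (cst Sl c) (bind₁ (nuc g S) R)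

theorem eval_hgt (Sl : Finset ℕ) (c : ℕ → ℝ) (R : PN) (z : ℕ → ℝ) :
    eval z (hgt g S Sl c R) = eval (pt g S fun l => if l ∈ Sl then c l else z l) R := by
  unfold hgt
  rw [AdxRow.evl_bnd, eval_fr']
  refine congrArg (fun u => eval (pt g S u) R) (funext fun l => ?_)
  unfold cst
  split_ifs
  · rw [eval_C]
  · rw [eval_X]

theorem hgt_vars (hS : TriN S) {m : ℕ} {R : PN} (hv : R.vars ⊆ range m) (Sl : Finset ℕ)
    (c : ℕ → ℝ) : (hgt g S Sl c R).vars ⊆ range m \ Sl := by
  intro k hk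
  obtain ⟨i, hi, hki⟩ := mem_vars_bind₁ _ _ hk
  have h1 := mem_range.1 (vars_fr hS hv hi)
  unfold cst at hki
  split_ifs at hki with h
  · rw [vars_C] at hki
    exact absurd hki (Finset.notMem_empty _)
  · rw [vars_X, Finset.mem_singleton] at hki
    subst hki
    exact Finset.mem_sdiff.2 ⟨mem_range.2 h1, h⟩

theorem hgt_deg (hS : TriN S) {K K' m : ℕ} (hK : ∀ i < m, (S i).totalDegree ≤ K) {R : PN}
    (hv : R.vars ⊆ range m) (hR : R.totalDegree ≤ K') (Sl : Finset ℕ) (c : ℕ → ℝ) :
    (hgt g S Sl c R).totalDegree ≤ K' * (K + 1) ^ m := by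
  unfold hgt
  refine (Dgb.deg_bind (B := 1) fun k _ => ?_).trans (by
    rw [mul_one]
    exact deg_fr hS hK hv hR)
  unfold cst
  split_ifs
  · rw [totalDegree_C]
    exact Nat.zero_le _
  · rw [totalDegree_X]

/-- **(TL), leaves**: a polynomial whose derivatives along the fields of the directions `Sl` are
small on the box of natural coordinates at most `B` is a polynomial in the other natural
coordinates, up to `2 m B ε`. -/
theorem tl_leaf (hS : TriN S) {m : ℕ} {R : PN} (hv : R.vars ⊆ range m) {Sl : Finset ℕ} {B ε : ℝ}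
    (hB : 0 ≤ B) (hε : 0 ≤ ε) {c : ℕ → ℝ} (hc : ∀ l ∈ Sl, l < m → |c l| ≤ B)
    (h : ∀ j ∈ Sl, j < m → ∀ b : ℕ → ℝ, (∀ i < m, |nat g S b i| ≤ B) →
      |eval b (Dj S j R)| ≤ ε * 2 ^ g j) :
    ∀ b : ℕ → ℝ, (∀ i < m, |nat g S b i| ≤ B) →
      |eval b R - eval (nat g S b) (hgt g S Sl c R)| ≤ 2 * m * B * ε := by
  classical
  intro b hb
  obtain ⟨z, hz⟩ : ∃ z : ℕ → ℝ, z = nat g S b := ⟨_, rfl⟩
  obtain ⟨F, hF⟩ : ∃ F : PN, F = bind₁ (nuc g S) R := ⟨_, rfl⟩
  have hFv : F.vars ⊆ range m := by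
    rw [hF]
    exact vars_fr hS hv
  rw [eval_hgt, ← eval_fr' , ← eval_fr hS b R, ← hF, ← hz]
  obtain ⟨x, hx⟩ : ∃ x : ℝ → ℕ → ℝ,
    x = fun s l => if l ∈ Sl then c l + s * (z l - c l) else z l := ⟨_, rfl⟩
  have hd : ∀ s : ℝ, ∀ l, HasDerivAt (fun s => x s l) (if l ∈ Sl then z l - c l else 0) s := by
    intro s l
    rw [hx]
    by_cases hl : l ∈ Sl
    · simp only [if_pos hl]
      have h1 := ((hasDerivAt_id s).mul_const (z l - c l)).const_add (c l)
      rw [one_mul] at h1
      exact h1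
    · simp only [if_neg hl]
      exact hasDerivAt_const _ _
  have hG : ∀ s : ℝ, HasDerivAt (fun s => eval (x s) F)
      (∑ j ∈ range m, (if j ∈ Sl then z j - c j else 0) * eval (x s) (pderiv j F)) s :=
    fun s => Pool.M3F.curve_sum (fun l => hd s l) hFv
  have hzB : ∀ i < m, |z i| ≤ B := by
    rw [hz]
    exact hb
  have hxB : ∀ s : ℝ, 0 ≤ s → s ≤ 1 → ∀ i < m, |x s i| ≤ B := by
    intro s h0 h1 i hi
    rw [hx]
    dsimp only
    split_ifs with hl
    · have e1 := hc i hl hi
      have e2 := hzB i hi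
      have e3 : c i + s * (z i - c i) = (1 - s) * c i + s * z i := by ring
      rw [e3]
      refine (abs_add_le _ _).trans ?_
      rw [abs_mul, abs_mul, abs_of_nonneg h0, abs_of_nonneg (show (0 : ℝ) ≤ 1 - s by linarith)]
      nlinarith
    · exact hzB i hi
  have hpd : ∀ s : ℝ, 0 ≤ s → s ≤ 1 → ∀ j ∈ Sl, j < m → |eval (x s) (pderiv j F)| ≤ ε := by
    intro s h0 h1 j hj hjm
    rw [hF, pderiv_fr hS, map_mul, eval_C, eval_fr', abs_mul,
      abs_of_pos (show (0 : ℝ) < 1 / 2 ^ g j by positivity)]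
    have e1 := h j hj hjm (pt g S (x s)) (fun i hi => by
      rw [nat_pt hS]
      exact hxB s h0 h1 i hi)
    rw [div_mul_eq_mul_div, one_mul, div_le_iff₀ (by positivity)]
    exact e1
  have hbd : ∀ s ∈ Set.Icc (0 : ℝ) 1,
      ‖∑ j ∈ range m, (if j ∈ Sl then z j - c j else 0) * eval (x s) (pderiv j F)‖ ≤
        2 * m * B * ε := by
    intro s hs
    rw [Real.norm_eq_abs]
    refine (Finset.abs_sum_le_sum_abs _ _).trans ?_
    have e1 : ∀ j ∈ range m,
        |(if j ∈ Sl then z j - c j else 0) * eval (x s) (pderiv j F)| ≤ 2 * B * ε := by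
      intro j hj
      have hjm := mem_range.1 hj
      split_ifs with hl
      · rw [abs_mul]
        have e2 : |z j - c j| ≤ 2 * B := by
          refine (abs_sub _ _).trans ?_
          have := hc j hl hjm
          have := hzB j hjm
          linarith
        refine mul_le_mul e2 (hpd s hs.1 hs.2 j hl hjm) (abs_nonneg _)
          (by positivity)
      · rw [zero_mul, abs_zero]
        positivity
    refine (Finset.sum_le_sum e1).trans ?_
    rw [Finset.sum_const, card_range, nsmul_eq_mul]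
    exact le_of_eq (by ring)
  have hmv := Convex.norm_image_sub_le_of_norm_hasDerivWithin_le (s := Set.Icc (0 : ℝ) 1)
    (f := fun s => eval (x s) F)
    (fun s _ => (hG s).hasDerivWithinAt) hbd (convex_Icc 0 1)
    (Set.left_mem_Icc.2 zero_le_one) (Set.right_mem_Icc.2 zero_le_one)
  rw [Real.norm_eq_abs, sub_zero, norm_one, mul_one] at hmv
  have e0 : x 0 = fun l => if l ∈ Sl then c l else z l := by
    funext l
    rw [hx]
    dsimp only
    split_ifs
    · ring
    · rfl
  have e1 : x 1 = z := by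
    funext l
    rw [hx]
    dsimp only
    split_ifs
    · ring
    · rfl
  rw [e0, e1] at hmv
  exact hmv

/-- **(TL), coefficients with a factor in `Sl`.** -/
theorem tl_coef (m K K' : ℕ) : ∃ C : ℝ, 1 ≤ C ∧ ∀ (g : ℕ → ℕ) (S : ℕ → PN) (R : PN)
    (Sl : Finset ℕ) (ε : ℝ), TriN S → (∀ i < m, (S i).totalDegree ≤ K) → R.vars ⊆ range m →
    R.totalDegree ≤ K' → 0 ≤ ε →
    (∀ j ∈ Sl, j < m → ∀ b : ℕ → ℝ, (∀ i < m, |nat g S b i| ≤ 1) →
      |eval b (Dj S j R)| ≤ ε * 2 ^ g j) →
    ∀ k : ℕ →₀ ℕ, (∃ l ∈ Sl, k l ≠ 0) → |coeff k (bind₁ (nuc g S) R)| ≤ C * ε := by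
  classical
  obtain ⟨C₀, hC₀, h⟩ := Pool.SYS35.nrm_of_sup m (K' * (K + 1) ^ m)
  refine ⟨C₀ * (2 * m + 1), by nlinarith [(Nat.cast_nonneg m : (0 : ℝ) ≤ m)], ?_⟩
  intro g S R Sl ε hS hK hv hR hε hD k hk
  obtain ⟨Q, hQ⟩ : ∃ Q : PN, Q = hgt g S Sl (fun _ => 0) R := ⟨_, rfl⟩
  obtain ⟨F, hF⟩ : ∃ F : PN, F = bind₁ (nuc g S) R := ⟨_, rfl⟩
  have hQv : Q.vars ⊆ range m \ Sl := by
    rw [hQ]
    exact hgt_vars hS hv Sl _
  have hFv : F.vars ⊆ range m := by
    rw [hF]
    exact vars_fr hS hv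
  have hQd : Q.totalDegree ≤ K' * (K + 1) ^ m := by
    rw [hQ]
    exact hgt_deg hS hK hv hR Sl _
  have hFd : F.totalDegree ≤ K' * (K + 1) ^ m := by
    rw [hF]
    exact deg_fr hS hK hv hR
  have h1 := h (fun _ => 1) 1 (F - Q) (2 * m * ε) one_pos
    (AdxRow.vars_sub_le hFv (hQv.trans Finset.sdiff_subset))
    ((totalDegree_sub _ _).trans (max_le hFd hQd)) (fun z hz => by
      have e1 := tl_leaf (g := g) hS hv (Sl := Sl) (B := 1) zero_le_one hε (c := fun _ => 0)
        (fun l _ _ => by rw [abs_zero]; exact zero_le_one) hD (pt g S z) (fun i hi => by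
          rw [nat_pt hS]
          have := hz i hi
          rwa [one_pow] at this)
      rw [nat_pt hS, ← hQ, ← eval_fr', ← hF, mul_one] at e1
      rw [map_sub]
      exact e1)
  have h2 : coeff k Q = 0 := by
    obtain ⟨l, hl, hkl⟩ := hk
    by_contra h3
    have h4 := hQv ((mem_vars_iff_mem_support l).2 ⟨k, mem_support_iff.2 h3,
      Finsupp.mem_support_iff.2 hkl⟩)
    exact (Finset.mem_sdiff.1 h4).2 hl
  have h3 : |coeff k F| ≤ nrm (fun _ => 1) 1 (F - Q) := by
    have e1 : coeff k F = coeff k (F - Q) := by rw [coeff_sub, h2, sub_zero]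
    rw [e1]
    by_cases hk' : k ∈ (F - Q).support
    · unfold nrm
      refine le_trans (le_of_eq ?_) (Finset.single_le_sum (f := fun k =>
        |coeff k (F - Q)| * (1 : ℝ) ^ Finsupp.weight (fun _ : ℕ => 1) k)
        (fun i _ => mul_nonneg (abs_nonneg _) (pow_nonneg zero_le_one _)) hk')
      rw [one_pow, mul_one]
    · rw [notMem_support_iff.1 hk', abs_zero]
      exact Pool.SYS35.nrm_nonneg' _ zero_le_one _
  rw [← hF]
  refine (h3.trans h1).trans ?_
  have : 0 ≤ C₀ * ε := mul_nonneg (by linarith) hε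
  nlinarith

end Pool.TL25
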