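import Pool.Agent.H20.MIC.Frm

/-!
# Taylor polynomials with real weights by boxes of two sizes

The coefficients of a polynomial which is at most `M` on the box with the sides `ρ l`
(`tay_coef`); a polynomial on a smaller box without the monomials of weight at least `μ`
(`tay_drop`).
-/

set_option autoImplicit false

namespace Pool.TL25

open Finset Real MvPolynomial
open Pool.STAT Pool.MIC.Frm

/-- The monomials in `Kp`. -/
noncomputable def keep (Kp : (ℕ →₀ ℕ) → Prop) [DecidablePred Kp] (P : PN) : PN :=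
  ∑ k ∈ P.support.filter Kp, monomial k (coeff k P)

/-- The product of powers of the sides. -/
noncomputable def mpw (ρ : ℕ → ℝ) (k : ℕ →₀ ℕ) : ℝ := ∏ l ∈ k.support, ρ l ^ k l

theorem mpw_pos {ρ : ℕ → ℝ} {k : ℕ →₀ ℕ} (h : ∀ l, 0 < ρ l) : 0 < mpw ρ k :=
  Finset.prod_pos fun l _ => pow_pos (h l) _

theorem eval_scl (ρ z : ℕ → ℝ) (P : PN) :
    eval z (bind₁ (fun l => C (ρ l) * X l) P) = eval (fun l => ρ l * z l) P := by
  rw [AdxRow.evl_bnd]
  refine congrArg (fun u => eval u P) (funext fun l => ?_)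
  rw [map_mul, eval_C, eval_X]

theorem coeff_scl (ρ : ℕ → ℝ) (P : PN) (k : ℕ →₀ ℕ) :
    coeff k (bind₁ (fun l => C (ρ l) * X l) P) = coeff k P * mpw ρ k := by
  classical
  have h1 : ∀ (m : ℕ →₀ ℕ) (a : ℝ), bind₁ (fun l => C (ρ l) * X l) (monomial m a : PN) =
      monomial m (a * mpw ρ m) := by
    intro m a
    rw [bind₁_monomial, monomial_eq, C_mul, mul_assoc]
    refine congrArg (fun u => C a * u) ?_
    unfold mpw
    rw [Finsupp.prod, map_prod, ← Finset.prod_mul_distrib]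
    refine Finset.prod_congr rfl fun l _ => ?_
    rw [mul_pow, C_pow]
  conv_lhs => rw [P.as_sum, map_sum]
  rw [coeff_sum]
  simp only [h1, coeff_monomial]
  rw [Finset.sum_ite_eq' P.support k]
  split_ifs with h
  · rfl
  · rw [notMem_support_iff.1 h, zero_mul]

/-- **(TL), coefficients.** -/
theorem tay_coef (n D : ℕ) : ∃ C : ℝ, 1 ≤ C ∧ ∀ (P : PN) (ρ : ℕ → ℝ) (M : ℝ), (∀ l, 0 < ρ l) →
    P.vars ⊆ range n → P.totalDegree ≤ D →
    (∀ x : ℕ → ℝ, (∀ l < n, |x l| ≤ ρ l) → |eval x P| ≤ M) →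
    ∀ k, |coeff k P| * mpw ρ k ≤ C * M := by
  obtain ⟨C, hC, h⟩ := Pool.SYS35.nrm_of_sup n D
  refine ⟨C, hC, fun P ρ M hρ hv hD hM k => ?_⟩
  obtain ⟨F, hF⟩ : ∃ F : PN, F = bind₁ (fun l => MvPolynomial.C (ρ l) * X l) P := ⟨_, rfl⟩
  have hFv : F.vars ⊆ range n := by
    rw [hF]
    exact AdxRow.vars_bnd hv fun l hl => AdxRow.vars_mul_le (AdxRow.vars_C_le _)
      (AdxRow.vars_X_le hl)
  have hFd : F.totalDegree ≤ D := by
    rw [hF]
    refine (Dgb.deg_bind (B := 1) fun l _ => ?_).trans (by rw [mul_one]; exact hD)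
    refine (totalDegree_mul _ _).trans ?_
    rw [totalDegree_C, totalDegree_X]
  have h1 := h (fun _ => 1) 1 F M one_pos hFv hFd (fun b hb => by
    rw [hF, eval_scl]
    refine hM _ fun l hl => ?_
    have := hb l hl
    rw [one_pow] at this
    rw [abs_mul, abs_of_pos (hρ l)]
    exact mul_le_of_le_one_right (hρ l).le this)
  have h2 : |coeff k P| * mpw ρ k = |coeff k F| := by
    rw [hF, coeff_scl, abs_mul, abs_of_pos (mpw_pos hρ)]
  rw [h2]
  refine le_trans ?_ h1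
  by_cases hk : k ∈ F.support
  · unfold nrm
    refine le_trans (le_of_eq ?_) (Finset.single_le_sum (f := fun k =>
      |coeff k F| * (1 : ℝ) ^ Finsupp.weight (fun _ : ℕ => 1) k)
      (fun i _ => mul_nonneg (abs_nonneg _) (pow_nonneg zero_le_one _)) hk)
    rw [one_pow, mul_one]
  · rw [notMem_support_iff.1 hk, abs_zero]
    exact Pool.SYS35.nrm_nonneg' _ zero_le_one _

theorem eval_mono_le {n : ℕ} {ρ x : ℕ → ℝ} {k : ℕ →₀ ℕ} (hk : ∀ l ∈ k.support, l < n)
    (hx : ∀ l < n, |x l| ≤ ρ l) : |∏ l ∈ k.support, x l ^ k l| ≤ mpw ρ k := by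
  rw [Finset.abs_prod]
  refine Finset.prod_le_prod (fun _ _ => abs_nonneg _) fun l hl => ?_
  rw [abs_pow]
  exact pow_le_pow_left₀ (abs_nonneg _) (hx l (hk l hl)) _

/-- The number of exponents. -/
theorem card_supp (n D : ℕ) : ∃ N : ℕ, ∀ P : PN, P.vars ⊆ range n → P.totalDegree ≤ D →
    P.support.card ≤ N := by
  classical
  refine ⟨(Finset.finsuppAntidiag (range n) D).card + (Finset.biUnion (range (D + 1)) fun d =>
    Finset.finsuppAntidiag (range n) d).card, fun P hv hD => ?_⟩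
  refine (Finset.card_le_card (t := Finset.biUnion (range (D + 1)) fun d =>
    Finset.finsuppAntidiag (range n) d) fun k hk => ?_).trans (Nat.le_add_left _ _)
  have h1 : k.support ⊆ range n := fun l hl =>
    hv ((mem_vars_iff_mem_support l).2 ⟨k, hk, hl⟩)
  rw [Finset.mem_biUnion]
  refine ⟨k.degree, mem_range.2 (Nat.lt_succ_of_le ((le_totalDegree hk).trans hD)), ?_⟩
  rw [Finset.mem_finsuppAntidiag]
  refine ⟨?_, h1⟩
  rw [Finsupp.degree_apply]
  exact (Finset.sum_subset h1 fun l _ hl => Finsupp.notMem_support_iff.1 hl).symm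

theorem keep_vars (Kp : (ℕ →₀ ℕ) → Prop) [DecidablePred Kp] (P : PN) :
    (keep Kp P).vars ⊆ P.vars := by
  refine AdxRow.vars_of_coeff fun α h => ?_
  unfold keep at h
  rw [coeff_sum] at h
  intro h2
  apply h
  refine Finset.sum_eq_zero fun k hk => ?_
  rw [coeff_monomial]
  split_ifs with h3
  · rw [h3, h2]
  · rfl

theorem coeff_keep (Kp : (ℕ →₀ ℕ) → Prop) [DecidablePred Kp] (P : PN) (k : ℕ →₀ ℕ) :
    coeff k (keep Kp P) = if Kp k then coeff k P else 0 := by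
  unfold keep
  rw [coeff_sum]
  simp only [coeff_monomial]
  rw [Finset.sum_ite_eq' (P.support.filter Kp) k]
  by_cases h : Kp k
  · rw [if_pos h]
    split_ifs with h2
    · rfl
    · rw [Finset.mem_filter, not_and_or] at h2
      rcases h2 with h2 | h2
      · exact (notMem_support_iff.1 h2).symm
      · exact absurd h h2
  · rw [if_neg h, if_neg]
    rw [Finset.mem_filter, not_and_or]
    exact Or.inr h

/-- **(TL), truncation**: the monomials outside `Kp` are small on the box with the sides `r`, if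
each of them is at most `δ` times its value on the larger box with the sides `ρ`. -/
theorem tay_drop (n D : ℕ) : ∃ C : ℝ, 1 ≤ C ∧ ∀ (P : PN) (ρ r : ℕ → ℝ) (M δ : ℝ)
    (Kp : (ℕ →₀ ℕ) → Prop) [DecidablePred Kp], (∀ l, 0 < ρ l) → 0 ≤ δ →
    P.vars ⊆ range n → P.totalDegree ≤ D →
    (∀ x : ℕ → ℝ, (∀ l < n, |x l| ≤ ρ l) → |eval x P| ≤ M) →
    (∀ k ∈ P.support, ¬ Kp k → mpw r k ≤ δ * mpw ρ k) →
    ∀ x : ℕ → ℝ, (∀ l < n, |x l| ≤ r l) → |eval x P - eval x (keep Kp P)| ≤ C * (M * δ) := by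
  classical
  obtain ⟨C, hC, h⟩ := tay_coef n D
  obtain ⟨N, hN⟩ := card_supp n D
  refine ⟨C * (N + 1), by nlinarith [(Nat.cast_nonneg N : (0 : ℝ) ≤ N)], ?_⟩
  intro P ρ r M δ Kp _ hρ hδ hv hD hM hr x hx
  have hM0 : 0 ≤ M := (abs_nonneg _).trans (hM (fun _ => 0) fun l _ => by
    rw [abs_zero]
    exact (hρ l).le)
  have h1 : eval x P - eval x (keep Kp P) = ∑ k ∈ P.support.filter (fun k => ¬ Kp k),
      coeff k P * ∏ l ∈ k.support, x l ^ k l := by
    unfold keep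
    rw [eval_eq, map_sum, ← Finset.sum_filter_add_sum_filter_not P.support Kp]
    simp only [eval_monomial, Finsupp.prod]
    ring
  rw [h1]
  refine (Finset.abs_sum_le_sum_abs _ _).trans ?_
  have h2 : ∀ k ∈ P.support.filter (fun k => ¬ Kp k),
      |coeff k P * ∏ l ∈ k.support, x l ^ k l| ≤ C * M * δ := by
    intro k hk
    obtain ⟨hk1, hk2⟩ := Finset.mem_filter.1 hk
    have e1 := h P ρ M hρ hv hD hM k
    have e2 := hr k hk1 hk2
    rw [abs_mul]
    have e3 : |∏ l ∈ k.support, x l ^ k l| ≤ mpw r k :=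
      eval_mono_le (n := n) (fun l hl => mem_range.1 (hv ((mem_vars_iff_mem_support l).2
        ⟨k, hk1, hl⟩))) hx
    calc |coeff k P| * |∏ l ∈ k.support, x l ^ k l| ≤ |coeff k P| * (δ * mpw ρ k) :=
          mul_le_mul_of_nonneg_left (e3.trans e2) (abs_nonneg _)
      _ = δ * (|coeff k P| * mpw ρ k) := by ring
      _ ≤ δ * (C * M) := mul_le_mul_of_nonneg_left e1 hδ
      _ = C * M * δ := by ring
  refine (Finset.sum_le_sum h2).trans ?_
  rw [Finset.sum_const, nsmul_eq_mul]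
  have h3 : ((P.support.filter (fun k => ¬ Kp k)).card : ℝ) ≤ N := by
    exact_mod_cast (Finset.card_le_card (Finset.filter_subset _ _)).trans (hN P hv hD)
  have h4 : 0 ≤ C * M * δ := by
    have : 0 ≤ C := by linarith
    positivity
  calc ((P.support.filter (fun k => ¬ Kp k)).card : ℝ) * (C * M * δ) ≤ N * (C * M * δ) :=
        mul_le_mul_of_nonneg_right h3 h4
    _ ≤ C * (N + 1) * (M * δ) := by nlinarith

/-- The weight of an exponent. -/
noncomputable def wtr (w : ℕ → ℝ) (k : ℕ →₀ ℕ) : ℝ := ∑ l ∈ k.support, k l * w l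

/-- The sides `2 ^ (t w l) r l`. -/
theorem mpw_rpow (w r : ℕ → ℝ) (t : ℝ) (k : ℕ →₀ ℕ) :
    mpw (fun l => (2 : ℝ) ^ (t * w l) * r l) k = (2 : ℝ) ^ (t * wtr w k) * mpw r k := by
  unfold mpw wtr
  rw [Finset.mul_sum, Real.rpow_sum_of_pos (by norm_num), ← Finset.prod_mul_distrib]
  refine Finset.prod_congr rfl fun l _ => ?_
  rw [mul_pow, ← Real.rpow_natCast ((2 : ℝ) ^ (t * w l)), ← Real.rpow_mul (by norm_num)]
  congr 2
  ring

/-- **(TL), Taylor with real weights**: a polynomial which is at most `M` on the box with the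
sides `2 ^ (t w l) r l`, on the box with the sides `r l`, without the monomials outside `Kp`, all
of weight at least `μ`. -/
theorem tay_wt (n D : ℕ) : ∃ C : ℝ, 1 ≤ C ∧ ∀ (P : PN) (w r : ℕ → ℝ) (M t μ : ℝ)
    (Kp : (ℕ →₀ ℕ) → Prop) [DecidablePred Kp], (∀ l, 0 < r l) → 0 ≤ t →
    P.vars ⊆ range n → P.totalDegree ≤ D →
    (∀ x : ℕ → ℝ, (∀ l < n, |x l| ≤ (2 : ℝ) ^ (t * w l) * r l) → |eval x P| ≤ M) →
    (∀ k ∈ P.support, ¬ Kp k → μ ≤ wtr w k) →
    ∀ x : ℕ → ℝ, (∀ l < n, |x l| ≤ r l) →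
      |eval x P - eval x (keep Kp P)| ≤ C * (M * (2 : ℝ) ^ (-(t * μ))) := by
  obtain ⟨C, hC, h⟩ := tay_drop n D
  refine ⟨C, hC, ?_⟩
  intro P w r M t μ Kp _ hr ht hv hD hM hk x hx
  refine h P (fun l => (2 : ℝ) ^ (t * w l) * r l) r M ((2 : ℝ) ^ (-(t * μ))) Kp
    (fun l => mul_pos (Real.rpow_pos_of_pos (by norm_num) _) (hr l))
    (Real.rpow_nonneg (by norm_num) _) hv hD hM (fun k hk1 hk2 => ?_) x hx
  rw [mpw_rpow, ← mul_assoc, ← Real.rpow_add (by norm_num)]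
  have h1 : (1 : ℝ) ≤ (2 : ℝ) ^ (-(t * μ) + t * wtr w k) := by
    refine Real.one_le_rpow (by norm_num) ?_
    have := mul_le_mul_of_nonneg_left (hk k hk1 hk2) ht
    linarith
  have h2 : 0 < mpw r k := mpw_pos hr
  nlinarith

/-- The polynomial in the coordinates centred at `c`. -/
noncomputable def rcn (c : ℕ → ℝ) (P : PN) : PN := bind₁ (fun l => X l + C (c l)) P

theorem eval_rcn (c z : ℕ → ℝ) (P : PN) : eval z (rcn c P) = eval (fun l => z l + c l) P := by
  unfold rcn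
  rw [AdxRow.evl_bnd]
  refine congrArg (fun u => eval u P) (funext fun l => ?_)
  rw [map_add, eval_C, eval_X]

theorem rcn_vars {n : ℕ} {P : PN} (hv : P.vars ⊆ range n) (c : ℕ → ℝ) :
    (rcn c P).vars ⊆ range n :=
  AdxRow.vars_bnd hv fun _ hl => AdxRow.vars_add_le (AdxRow.vars_X_le hl) (AdxRow.vars_C_le _)

theorem rcn_deg {D : ℕ} {P : PN} (hD : P.totalDegree ≤ D) (c : ℕ → ℝ) :
    (rcn c P).totalDegree ≤ D := by
  unfold rcn
  refine (Dgb.deg_bind (B := 1) fun l _ => ?_).trans (by rw [mul_one]; exact hD)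
  refine (totalDegree_add _ _).trans (max_le ?_ ?_)
  · rw [totalDegree_X]
  · rw [totalDegree_C]
    exact Nat.zero_le _

/-- **(TL), Taylor with real weights at a point.** -/
theorem tay_at (n D : ℕ) : ∃ C : ℝ, 1 ≤ C ∧ ∀ (P : PN) (w r c : ℕ → ℝ) (M t μ : ℝ)
    (Kp : (ℕ →₀ ℕ) → Prop) [DecidablePred Kp], (∀ l, 0 < r l) → 0 ≤ t →
    P.vars ⊆ range n → P.totalDegree ≤ D →
    (∀ x : ℕ → ℝ, (∀ l < n, |x l - c l| ≤ (2 : ℝ) ^ (t * w l) * r l) → |eval x P| ≤ M) →
    (∀ k ∈ (rcn c P).support, ¬ Kp k → μ ≤ wtr w k) →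
    ∀ x : ℕ → ℝ, (∀ l < n, |x l - c l| ≤ r l) →
      |eval x P - eval (fun l => x l - c l) (keep Kp (rcn c P))| ≤
        C * (M * (2 : ℝ) ^ (-(t * μ))) := by
  obtain ⟨C, hC, h⟩ := tay_wt n D
  refine ⟨C, hC, ?_⟩
  intro P w r c M t μ Kp _ hr ht hv hD hM hk x hx
  have h1 := h (rcn c P) w r M t μ Kp hr ht (rcn_vars hv c) (rcn_deg hD c) (fun y hy => by
    rw [eval_rcn]
    refine hM _ fun l hl => ?_
    rw [add_sub_cancel_right]
    exact hy l hl) hk (fun l => x l - c l) hx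
  rw [eval_rcn] at h1
  simp only [sub_add_cancel] at h1
  exact h1

/-- **(TL), coefficients with real weights at a point.** -/
theorem coef_at (n D : ℕ) : ∃ C : ℝ, 1 ≤ C ∧ ∀ (P : PN) (w r c : ℕ → ℝ) (M t : ℝ),
    (∀ l, 0 < r l) → P.vars ⊆ range n → P.totalDegree ≤ D →
    (∀ x : ℕ → ℝ, (∀ l < n, |x l - c l| ≤ (2 : ℝ) ^ (t * w l) * r l) → |eval x P| ≤ M) →
    ∀ k, |coeff k (rcn c P)| * mpw r k ≤ C * (M * (2 : ℝ) ^ (-(t * wtr w k))) := by
  obtain ⟨C, hC, h⟩ := tay_coef n D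
  refine ⟨C, hC, ?_⟩
  intro P w r c M t hr hv hD hM k
  have h1 := h (rcn c P) (fun l => (2 : ℝ) ^ (t * w l) * r l) M
    (fun l => mul_pos (Real.rpow_pos_of_pos (by norm_num) _) (hr l)) (rcn_vars hv c)
    (rcn_deg hD c) (fun y hy => by
      rw [eval_rcn]
      refine hM _ fun l hl => ?_
      rw [add_sub_cancel_right]
      exact hy l hl) k
  rw [mpw_rpow] at h1
  have h2 : (0 : ℝ) < (2 : ℝ) ^ (t * wtr w k) := Real.rpow_pos_of_pos (by norm_num) _
  rw [Real.rpow_neg (by norm_num), ← mul_assoc, ← div_eq_mul_inv, le_div_iff₀ h2]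
  calc |coeff k (rcn c P)| * mpw r k * (2 : ℝ) ^ (t * wtr w k) =
      |coeff k (rcn c P)| * ((2 : ℝ) ^ (t * wtr w k) * mpw r k) := by ring
    _ ≤ C * M := h1

end Pool.TL25
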